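import Mathlib

/-!
# Cantor-Bendixson derivatives, heights and unitary spaces
-/

open Set Filter Topology

universe u

namespace Pool.Agent.R667.Skula

/-- The Cantor-Bendixson derivatives of `X`: `X^[α] = ⋂_{β < α} (X^[β])^[1]` (so `X^[0] = X`), where
`A^[1]` is the set of the points of `A` that are not isolated in the subspace `A`. -/
noncomputable def CB (X : Type u) [TopologicalSpace X] (α : Ordinal.{u}) : Set X :=
  ⋂ β : Set.Iio α, {x | x ∈ CB X β.1 ∧ AccPt x (𝓟 (CB X β.1))}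
termination_by α
decreasing_by all_goals exact β.2

/-- Every nonempty subset of `X` has a point that is isolated in that subset. -/
def Scattered (X : Type u) [TopologicalSpace X] : Prop :=
  ∀ K : Set X, K.Nonempty → ∃ x ∈ K, ¬ AccPt x (𝓟 K)

/-- The height of a point of a scattered space (the `α` with `x ∈ X^[α] \ X^[α+1]`,
see `ht_spec`). -/
noncomputable def ht {X : Type u} [TopologicalSpace X] (x : X) : Ordinal.{u} :=
  sInf {α | x ∉ CB X (α + 1)}

/-- The height of a scattered space. -/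
noncomputable def htSpace (X : Type u) [TopologicalSpace X] : Ordinal.{u} := ⨆ x : X, ht x

/-- `X` is a compact scattered space that is unitary with end-point `e`. -/
def IsUnitary (X : Type u) [TopologicalSpace X] (e : X) : Prop :=
  CompactSpace X ∧ Scattered X ∧ CB X (htSpace X) = {e}

/-- A clopen selector for `X`. -/
structure IsClopenSelector (X : Type u) [TopologicalSpace X] (U : X → Set X) : Prop where
  clopen : ∀ x, IsClopen (U x)
  mem : ∀ x, x ∈ U x
  trans : ∀ x, ∀ y ∈ U x, y ≠ x → U y ⊆ U x ∧ x ∉ U y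

/-- The compact Hausdorff space `X` is canonically Skula: it has a clopen selector `U` such that
every subspace `U x` is unitary with end-point `x`. -/
def CanonicallySkula (X : Type u) [TopologicalSpace X] : Prop :=
  CompactSpace X ∧ T2Space X ∧
    ∃ U : X → Set X, ∃ h : IsClopenSelector X U, ∀ x, IsUnitary (U x) ⟨x, h.mem x⟩

section
variable {X : Type u} [TopologicalSpace X]

theorem mem_CB {α : Ordinal.{u}} {x : X} :
    x ∈ CB X α ↔ ∀ β < α, x ∈ CB X β ∧ AccPt x (𝓟 (CB X β)) := by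
  rw [CB]
  simp

theorem CB_anti {α β : Ordinal.{u}} (h : α ≤ β) : CB X β ⊆ CB X α := by
  intro x hx
  rw [mem_CB] at hx ⊢
  exact fun γ hγ => hx γ (lt_of_lt_of_le hγ h)

theorem mem_CB_succ {α : Ordinal.{u}} {x : X} :
    x ∈ CB X (α + 1) ↔ x ∈ CB X α ∧ AccPt x (𝓟 (CB X α)) := by
  constructor
  · intro h
    exact mem_CB.1 h α (by simp)
  · rintro ⟨h1, h2⟩
    rw [mem_CB]
    intro β hβ
    have hle : β ≤ α := Order.lt_add_one_iff.1 hβ
    exact ⟨CB_anti hle h1, h2.mono (principal_mono.2 (CB_anti hle))⟩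

theorem exists_notMem_CB (hX : Scattered X) (x : X) : ∃ α : Ordinal.{u}, x ∉ CB X (α + 1) := by
  classical
  by_contra hcon
  push Not at hcon
  let K : Set X := {y | ∀ α : Ordinal.{u}, y ∈ CB X (α + 1)}
  obtain ⟨z, hz, hiso⟩ := hX K ⟨x, hcon⟩
  rw [accPt_iff_nhds] at hiso
  push Not at hiso
  obtain ⟨V, hV, hVK⟩ := hiso
  have hex : ∀ y : X, ∃ α : Ordinal.{u}, y ∉ K → y ∉ CB X (α + 1) := by
    intro y
    by_cases hy : y ∈ K
    · exact ⟨0, fun h => absurd hy h⟩
    · have : ¬ ∀ α : Ordinal.{u}, y ∈ CB X (α + 1) := hy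
      push Not at this
      obtain ⟨α, hα⟩ := this
      exact ⟨α, fun _ => hα⟩
  choose a ha using hex
  set α : Ordinal.{u} := ⨆ y : X, a y with hα
  have hle : ∀ y, a y ≤ α := fun y => le_ciSup (Ordinal.bddAbove_of_small) y
  have h1 : z ∈ CB X (α + 1 + 1) := hz (α + 1)
  rw [mem_CB_succ, accPt_iff_nhds] at h1
  obtain ⟨y, ⟨hyV, hyC⟩, hyz⟩ := h1.2 V hV
  by_cases hyK : y ∈ K
  · exact hyz (hVK y ⟨hyV, hyK⟩)
  · exact ha y hyK (CB_anti (add_le_add_left (hle y) 1) hyC)

theorem CB_zero : CB X 0 = univ := by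
  ext x
  rw [mem_CB]
  simp

theorem CB_add_one (α : Ordinal.{u}) : CB X (α + 1) = {x | x ∈ CB X α ∧ AccPt x (𝓟 (CB X α))} := by
  ext x
  exact mem_CB_succ

theorem CB_limit {α : Ordinal.{u}} (hα : Order.IsSuccLimit α) :
    CB X α = ⋂ β : Set.Iio α, CB X β.1 := by
  ext x
  rw [mem_CB]
  simp only [mem_iInter, Subtype.forall, mem_Iio]
  constructor
  · exact fun h β hβ => (h β hβ).1
  · exact fun h β hβ => mem_CB_succ.1 (h (β + 1) (by
      have := hα.succ_lt hβ
      rwa [Order.succ_eq_add_one] at this))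

theorem ht_spec (hX : Scattered X) (x : X) : x ∈ CB X (ht x) ∧ x ∉ CB X (ht x + 1) := by
  have hne : {α : Ordinal.{u} | x ∉ CB X (α + 1)}.Nonempty := exists_notMem_CB hX x
  refine ⟨?_, csInf_mem hne⟩
  rw [mem_CB]
  intro β hβ
  have h1 : ¬ x ∉ CB X (β + 1) := fun h => absurd (csInf_le' h) (not_le.2 hβ)
  exact mem_CB_succ.1 (not_not.1 h1)

theorem mem_CB_iff (hX : Scattered X) (x : X) (α : Ordinal.{u}) : x ∈ CB X α ↔ α ≤ ht x := by
  constructor
  · intro h
    by_contra hcon
    push Not at hcon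
    exact (ht_spec hX x).2 (CB_anti (Order.add_one_le_of_lt hcon) h)
  · intro h
    exact CB_anti h (ht_spec hX x).1

/-- Derivatives of an open subspace. -/
theorem CB_open {U : Set X} (hU : IsOpen U) (α : Ordinal.{u}) (x : U) :
    x ∈ CB U α ↔ (x : X) ∈ CB X α := by
  induction α using WellFoundedLT.induction generalizing x with
  | ind α ih =>
    rw [mem_CB, mem_CB]
    refine forall_congr' fun β => forall_congr' fun hβ => ?_
    rw [ih β hβ x]
    refine and_congr_right fun _ => ?_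
    rw [accPt_iff_nhds, accPt_iff_nhds]
    constructor
    · intro h V hV
      obtain ⟨y, ⟨hyV, hyC⟩, hyx⟩ := h (Subtype.val ⁻¹' V)
        (continuous_subtype_val.continuousAt.preimage_mem_nhds hV)
      exact ⟨y, ⟨hyV, (ih β hβ y).1 hyC⟩, fun h' => hyx (Subtype.ext h')⟩
    · intro h V hV
      have hV' : Subtype.val '' V ∈ 𝓝 (x : X) := by
        exact (hU.isOpenMap_subtype_val).image_mem_nhds hV
      obtain ⟨y, ⟨⟨z, hz, rfl⟩, hyC⟩, hyx⟩ := h _ hV'
      exact ⟨z, ⟨hz, (ih β hβ z).2 hyC⟩, fun h' => hyx (by rw [h'])⟩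

theorem ht_open {U : Set X} (hU : IsOpen U) (x : U) : ht x = ht (x : X) := by
  unfold ht
  congr 1
  ext α
  simp only [mem_ofPred_eq, CB_open hU]

theorem Scattered.subspace (hX : Scattered X) (U : Set X) : Scattered U := by
  intro K hK
  obtain ⟨_, ⟨x, hx, rfl⟩, hiso⟩ := hX (Subtype.val '' K) (hK.image _)
  refine ⟨x, hx, fun hacc => hiso ?_⟩
  rw [accPt_iff_nhds] at hacc ⊢
  intro V hV
  obtain ⟨y, ⟨hyV, hyC⟩, hyx⟩ := hacc (Subtype.val ⁻¹' V)
    (continuous_subtype_val.continuousAt.preimage_mem_nhds hV)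
  exact ⟨y, ⟨hyV, ⟨y, hyC, rfl⟩⟩, fun h' => hyx (Subtype.ext h')⟩

/-- A criterion for a clopen set to be unitary. -/
theorem isUnitary_of [CompactSpace X] (hX : Scattered X) {U : Set X} (hU : IsClopen U) {x : X}
    (hx : x ∈ U) (h : ∀ y ∈ U, y ≠ x → ht y < ht x) : IsUnitary U ⟨x, hx⟩ := by
  have hht : htSpace U = ht x := by
    apply le_antisymm
    · refine Ordinal.iSup_le fun y => ?_
      rw [ht_open hU.isOpen]
      by_cases hy : (y : X) = x
      · rw [hy]
      · exact (h y y.2 hy).le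
    · have h1 : ht (⟨x, hx⟩ : U) ≤ htSpace U :=
        le_ciSup (f := fun y : U => ht y) (Ordinal.bddAbove_of_small) ⟨x, hx⟩
      rwa [ht_open hU.isOpen] at h1
  refine ⟨isCompact_iff_compactSpace.1 hU.isClosed.isCompact, hX.subspace U, ?_⟩
  ext y
  rw [CB_open hU.isOpen, hht, mem_CB_iff hX, mem_singleton_iff]
  constructor
  · intro h1
    by_contra hne
    exact absurd h1 (not_le.2 (h y y.2 fun h' => hne (Subtype.ext h')))
  · rintro rfl
    exact le_rfl

end

end Pool.Agent.R667.Skula
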