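import Mathlib

/-!
# Narrow order-scattered posets: a well-founded decomposition (Pouzet)
-/

open Set

universe u

namespace Pool.Agent.R667.Skula

variable {P : Type u} [PartialOrder P]

/-- An inductively generated ideal of subsets of `P`. -/
inductive Small : Set P → Prop
  | union {S T : Set P} : Small S → Small T → Small (S ∪ T)
  | up {S : Set P} : (∀ p ∈ S, Small (S \ Iic p)) → Small S
  | down {S : Set P} : (∀ p ∈ S, Small (S \ Ici p)) → Small S

theorem Small.mono {S : Set P} (h : Small S) : ∀ {T : Set P}, T ⊆ S → Small T := by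
  induction h with
  | @union S S' h1 h2 ih1 ih2 =>
    intro T hT
    have : T = (T ∩ S) ∪ (T ∩ S') := by
      rw [← inter_union_distrib_left, inter_eq_left.2 hT]
    rw [this]
    exact Small.union (ih1 inter_subset_right) (ih2 inter_subset_right)
  | @up S h ih =>
    intro T hT
    exact Small.up fun p hp => ih p (hT hp) (sdiff_subset_sdiff_left hT)
  | @down S h ih =>
    intro T hT
    exact Small.down fun p hp => ih p (hT hp) (sdiff_subset_sdiff_left hT)

theorem Small.empty : Small (∅ : Set P) := Small.up fun p hp => absurd hp (notMem_empty p)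

theorem Small.singleton (p : P) : Small ({p} : Set P) := by
  refine Small.up fun q hq => ?_
  rw [mem_singleton_iff] at hq
  subst hq
  refine Small.empty.mono ?_
  rintro x ⟨hx, hx'⟩
  rw [mem_singleton_iff] at hx
  subst hx
  exact absurd (le_refl x) hx'

/-- `P` is narrow. -/
def Narrow (P : Type u) [PartialOrder P] : Prop :=
  ∀ A : Set P, IsAntichain (· ≤ ·) A → A.Finite

theorem Narrow.seq (h : Narrow P) (f : ℕ → P) : ∃ i j, i < j ∧ (f i ≤ f j ∨ f j ≤ f i) := by
  by_contra hcon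
  push Not at hcon
  have hinj : Function.Injective f := by
    intro i j hij
    by_contra hne
    rcases lt_or_gt_of_ne hne with h1 | h1
    · exact (hcon i j h1).1 hij.le
    · exact (hcon j i h1).1 hij.ge
  refine (infinite_range_of_injective hinj) (h _ ?_)
  rintro _ ⟨i, rfl⟩ _ ⟨j, rfl⟩ hne
  have hij : i ≠ j := fun h => hne (by rw [h])
  rcases lt_or_gt_of_ne hij with h1 | h1
  · exact (hcon i j h1).1
  · exact (hcon j i h1).2

/-- Lemma A. -/
theorem lemmaA (hP : Narrow P) {S : Set P} (hS : ¬ Small S) : ∃ p ∈ S, ¬ Small (S ∩ Ici p) := by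
  classical
  by_contra hcon
  push Not at hcon
  -- the step
  have step : ∀ T : {T : Set P // T ⊆ S ∧ ¬ Small T}, ∃ p ∈ T.1,
      ¬ Small (T.1 ∩ {q | ¬ p ≤ q ∧ ¬ q ≤ p}) := by
    rintro ⟨T, hTS, hT⟩
    have h1 : ∃ p ∈ T, ¬ Small (T \ Iic p) := by
      by_contra h2
      push Not at h2
      exact hT (Small.up h2)
    obtain ⟨p, hp, h2⟩ := h1
    refine ⟨p, hp, fun h3 => h2 ?_⟩
    refine (Small.union (hcon p (hTS hp)) h3).mono ?_
    rintro x ⟨hx, hxp⟩
    by_cases h4 : p ≤ x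
    · exact Or.inl ⟨hTS hx, h4⟩
    · exact Or.inr ⟨hx, h4, hxp⟩
  choose g hg hg' using step
  let nxt : {T : Set P // T ⊆ S ∧ ¬ Small T} → {T : Set P // T ⊆ S ∧ ¬ Small T} := fun T =>
    ⟨T.1 ∩ {q | ¬ g T ≤ q ∧ ¬ q ≤ g T}, inter_subset_left.trans T.2.1, hg' T⟩
  let T : ℕ → {T : Set P // T ⊆ S ∧ ¬ Small T} := fun n => nxt^[n] ⟨S, subset_rfl, hS⟩
  have hTs : ∀ n, T (n + 1) = nxt (T n) := fun n => Function.iterate_succ_apply' _ _ _
  have hmono : ∀ n m, n ≤ m → (T m).1 ⊆ (T n).1 := by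
    intro n m h
    induction m, h using Nat.le_induction with
    | base => exact subset_rfl
    | succ m _ ih =>
      rw [hTs]
      exact inter_subset_left.trans ih
  obtain ⟨i, j, hij, h⟩ := hP.seq fun n => g (T n)
  have h1 : g (T j) ∈ (T (i + 1)).1 := hmono (i + 1) j hij (hg (T j))
  rw [hTs] at h1
  rcases h with h | h
  · exact h1.2.1 h
  · exact h1.2.2 h

/-- Lemma B. -/
theorem lemmaB (hP : Narrow P) {S : Set P} (hS : ¬ Small S) : ∃ p ∈ S, ¬ Small (S ∩ Iic p) := by
  classical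
  by_contra hcon
  push Not at hcon
  -- the step
  have step : ∀ T : {T : Set P // T ⊆ S ∧ ¬ Small T}, ∃ p ∈ T.1,
      ¬ Small (T.1 ∩ {q | ¬ p ≤ q ∧ ¬ q ≤ p}) := by
    rintro ⟨T, hTS, hT⟩
    have h1 : ∃ p ∈ T, ¬ Small (T \ Ici p) := by
      by_contra h2
      push Not at h2
      exact hT (Small.down h2)
    obtain ⟨p, hp, h2⟩ := h1
    refine ⟨p, hp, fun h3 => h2 ?_⟩
    refine (Small.union (hcon p (hTS hp)) h3).mono ?_
    rintro x ⟨hx, hxp⟩
    by_cases h4 : x ≤ p
    · exact Or.inl ⟨hTS hx, h4⟩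
    · exact Or.inr ⟨hx, hxp, h4⟩
  choose g hg hg' using step
  let nxt : {T : Set P // T ⊆ S ∧ ¬ Small T} → {T : Set P // T ⊆ S ∧ ¬ Small T} := fun T =>
    ⟨T.1 ∩ {q | ¬ g T ≤ q ∧ ¬ q ≤ g T}, inter_subset_left.trans T.2.1, hg' T⟩
  let T : ℕ → {T : Set P // T ⊆ S ∧ ¬ Small T} := fun n => nxt^[n] ⟨S, subset_rfl, hS⟩
  have hTs : ∀ n, T (n + 1) = nxt (T n) := fun n => Function.iterate_succ_apply' _ _ _
  have hmono : ∀ n m, n ≤ m → (T m).1 ⊆ (T n).1 := by
    intro n m h
    induction m, h using Nat.le_induction with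
    | base => exact subset_rfl
    | succ m _ ih =>
      rw [hTs]
      exact inter_subset_left.trans ih
  obtain ⟨i, j, hij, h⟩ := hP.seq fun n => g (T n)
  have h1 : g (T j) ∈ (T (i + 1)).1 := hmono (i + 1) j hij (hg (T j))
  rw [hTs] at h1
  rcases h with h | h
  · exact h1.2.1 h
  · exact h1.2.2 h

theorem exists_split (hP : Narrow P) {D : Set P} (hD : ¬ Small D) :
    ∃ p ∈ D, ¬ Small (D ∩ Ioi p) ∧ ¬ Small (D ∩ Iio p) := by
  classical
  have key : ∃ p ∈ D, ¬ Small (D ∩ Ici p) ∧ ¬ Small (D ∩ Iic p) := by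
    by_contra hcon
    push Not at hcon
    have h1 : ¬ (Small {p ∈ D | Small (D ∩ Ici p)} ∧ Small {p ∈ D | Small (D ∩ Iic p)}) := by
      rintro ⟨h1, h2⟩
      refine hD ((Small.union h1 h2).mono ?_)
      intro p hp
      by_cases h3 : Small (D ∩ Ici p)
      · exact Or.inl ⟨hp, h3⟩
      · exact Or.inr ⟨hp, hcon p hp h3⟩
    rw [not_and_or] at h1
    rcases h1 with h1 | h1
    · obtain ⟨p, hp, h2⟩ := lemmaA hP h1
      exact h2 (hp.2.mono (inter_subset_inter_left _ fun x hx => hx.1))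
    · obtain ⟨p, hp, h2⟩ := lemmaB hP h1
      exact h2 (hp.2.mono (inter_subset_inter_left _ fun x hx => hx.1))
  obtain ⟨p, hp, h1, h2⟩ := key
  refine ⟨p, hp, fun h => h1 ?_, fun h => h2 ?_⟩
  · refine (Small.union h (Small.singleton p)).mono ?_
    rintro x ⟨hx, hx'⟩
    rcases eq_or_lt_of_le (show p ≤ x from hx') with h3 | h3
    · exact Or.inr h3.symm
    · exact Or.inl ⟨hx, h3⟩
  · refine (Small.union h (Small.singleton p)).mono ?_
    rintro x ⟨hx, hx'⟩
    rcases eq_or_lt_of_le (show x ≤ p from hx') with h3 | h3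
    · exact Or.inr h3
    · exact Or.inl ⟨hx, h3⟩

/-- A narrow poset into which `ℚ` does not embed is small. -/
theorem small_univ (hP : Narrow P) (hQ : IsEmpty (ℚ ↪o P)) : Small (univ : Set P) := by
  classical
  by_contra hS
  obtain ⟨p, -, h1, -⟩ := exists_split hP hS
  obtain ⟨p', hp', -, h2⟩ := exists_split hP h1
  have hpp' : p < p' := hp'.2
  have hI : ¬ Small (Ioo p p') := by
    intro h
    refine h2 (h.mono ?_)
    rintro x ⟨⟨-, hx⟩, hx'⟩
    exact ⟨hx, hx'⟩
  let r : P → P → Prop := fun x y => x < y ∧ ¬ Small (Ioo x y)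
  have hchain : IsChain r ({p, p'} : Set P) := by
    rintro x hx y hy hne
    rcases hx with rfl | hx <;> rcases hy with rfl | hy
    · exact absurd rfl hne
    · rw [mem_singleton_iff] at hy; subst hy
      exact Or.inl ⟨hpp', hI⟩
    · rw [mem_singleton_iff] at hx; subst hx
      exact Or.inr ⟨hpp', hI⟩
    · rw [mem_singleton_iff] at hx hy; subst hx; subst hy
      exact absurd rfl hne
  obtain ⟨M, hM, hsub⟩ := hchain.exists_maxChain
  have hMc : IsChain r M := hM.1
  have htot : ∀ x y : M, x ≤ y ∨ y ≤ x := by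
    rintro ⟨x, hx⟩ ⟨y, hy⟩
    by_cases hxy : x = y
    · left; subst hxy; exact le_refl _
    · rcases hMc hx hy hxy with h | h
      · exact Or.inl h.1.le
      · exact Or.inr h.1.le
  let _ : LinearOrder M :=
    { (inferInstance : PartialOrder M) with
      le_total := htot
      toDecidableLE := Classical.decRel _ }
  have : Nontrivial M := ⟨⟨p, hsub (by simp)⟩, ⟨p', hsub (by simp)⟩, fun h =>
    hpp'.ne (congrArg Subtype.val h)⟩
  have : DenselyOrdered M := by
    refine ⟨?_⟩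
    rintro ⟨x, hx⟩ ⟨y, hy⟩ hxy
    have hxy : x < y := hxy
    have hrxy : r x y := by
      rcases hMc hx hy hxy.ne with h | h
      · exact h
      · exact absurd h.1 (not_lt_of_gt hxy)
    obtain ⟨z, hz, h3, h4⟩ := exists_split hP hrxy.2
    have h3' : ¬ Small (Ioo z y) := by
      intro h
      refine h3 (h.mono ?_)
      rintro w ⟨⟨_, hw⟩, hw'⟩
      exact ⟨hw', hw⟩
    have h4' : ¬ Small (Ioo x z) := by
      intro h
      refine h4 (h.mono ?_)
      rintro w ⟨⟨hw, _⟩, hw'⟩
      exact ⟨hw, hw'⟩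
    by_contra hno
    push Not at hno
    have hno' : ∀ w ∈ M, ¬ (x < w ∧ w < y) := by
      rintro w hw ⟨h5, h6⟩
      exact absurd (show (⟨w, hw⟩ : M) < ⟨y, hy⟩ from h6) (not_lt_of_ge (hno ⟨w, hw⟩ h5))
    have hins : IsChain r (insert z M) := by
      refine hMc.insert ?_
      intro w hw hne
      have htw := htot ⟨w, hw⟩ ⟨x, hx⟩
      by_cases hwx : w ≤ x
      · right
        refine ⟨lt_of_le_of_lt hwx hz.1, fun h => h4' (h.mono ?_)⟩
        rintro v ⟨h5, h6⟩
        exact ⟨lt_of_le_of_lt hwx h5, h6⟩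
      · have hxw : x ≤ w := htw.resolve_left hwx
        have hxw' : x < w := lt_of_le_of_ne hxw fun h => hwx h.ge
        have hyw : y ≤ w := by
          rcases htot ⟨w, hw⟩ ⟨y, hy⟩ with h | h
          · by_cases hwy : w = y
            · exact hwy.ge
            · exact absurd ⟨hxw', lt_of_le_of_ne h hwy⟩ (hno' w hw)
          · exact h
        left
        refine ⟨lt_of_lt_of_le hz.2 hyw, fun h => h3' (h.mono ?_)⟩
        rintro v ⟨h5, h6⟩
        exact ⟨h5, lt_of_lt_of_le h6 hyw⟩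
    have hzM : z ∈ M := by
      rw [hM.2 hins (subset_insert z M)]
      exact mem_insert z M
    exact hno' z hzM ⟨hz.1, hz.2⟩
  obtain ⟨e⟩ := Order.embedding_from_countable_to_dense (α := ℚ) (β := M)
  exact hQ.elim (e.trans (OrderEmbedding.subtype _))

end Pool.Agent.R667.Skula
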