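import Pool.Agent.Helper718.CWG.Core
import Pool.Agent.R667.Skula.CB
import Pool.Agent.R667.Skula.Small

/-!
# The space of final subsets of a narrow order-scattered poset is canonically Skula
-/

open Set Filter Topology
open Pool.Agent.Helper718.CWG (Low IsRank FAC exists_selector)

universe u

namespace Pool.Agent.R667.Skula

/-- The space `FS(P)` of the final subsets of `P`, a subspace of `{0,1}^P`. -/
def FinalSets (P : Type u) [PartialOrder P] : Set (P → Bool) :=
  {F | ∀ x y, x ≤ y → F x = true → F y = true}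

variable {P : Type u} [PartialOrder P]

theorem isClosed_finalSets : IsClosed (FinalSets P) := by
  have h : FinalSets P = ⋂ x : P, ⋂ y : P, {F : P → Bool | x ≤ y → F x = true → F y = true} := by
    ext F; simp [FinalSets]
  rw [h]
  refine isClosed_iInter fun x => isClosed_iInter fun y => ?_
  by_cases hxy : x ≤ y
  · have : {F : P → Bool | x ≤ y → F x = true → F y = true} =
        (fun F : P → Bool => (F x, F y)) ⁻¹' {q | q.1 = true → q.2 = true} := by
      ext F; simp [hxy]
    rw [this]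
    exact (isClosed_discrete _).preimage (by fun_prop)
  · have : {F : P → Bool | x ≤ y → F x = true → F y = true} = univ := by
      ext F; simp [hxy]
    rw [this]
    exact isClosed_univ

instance : CompactSpace (FinalSets P) := isCompact_iff_compactSpace.1 isClosed_finalSets.isCompact

/-- cylinder sets are open -/
theorem cyl_mem (F : FinalSets P) (S : Finset P) : {G : FinalSets P | ∀ p ∈ S, G.1 p = F.1 p} ∈ 𝓝 F := by
  have h : {G : FinalSets P | ∀ p ∈ S, G.1 p = F.1 p} =
      ⋂ p ∈ S, (fun G : FinalSets P => G.1 p) ⁻¹' {F.1 p} := by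
    ext G; simp
  rw [h]
  refine (Filter.biInter_finset_mem S).2 fun p _ => ?_
  have hc : Continuous fun G : FinalSets P => G.1 p := (continuous_apply p).comp continuous_subtype_val
  exact hc.continuousAt.preimage_mem_nhds ((isOpen_discrete _).mem_nhds rfl)

theorem exists_cyl (F : FinalSets P) {N : Set (FinalSets P)} (hN : N ∈ 𝓝 F) :
    ∃ S : Finset P, ∀ G : FinalSets P, (∀ p ∈ S, G.1 p = F.1 p) → G ∈ N := by
  rw [mem_nhds_subtype] at hN
  obtain ⟨M, hM, hMN⟩ := hN
  rw [nhds_pi, Filter.mem_pi'] at hM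
  obtain ⟨S, t, ht, hS⟩ := hM
  refine ⟨S, fun G hG => hMN (hS ?_)⟩
  intro p hp
  rw [hG p hp]
  exact mem_of_mem_nhds (ht p)

theorem sc {S : Set P} (h : Small S) : ∀ K : Set (FinalSets P), K.Nonempty → ∃ G ∈ K, ∃ T : Finset P,
    ∀ G' ∈ K, (∀ p ∈ T, G'.1 p = G.1 p) → ∀ p ∈ S, G'.1 p = G.1 p := by
  classical
  induction h with
  | @union S S' h1 h2 ih1 ih2 =>
    intro K hK
    obtain ⟨G1, hG1, T1, hT1⟩ := ih1 K hK
    obtain ⟨G2, hG2, T2, hT2⟩ := ih2 {G' ∈ K | ∀ p ∈ T1, G'.1 p = G1.1 p} ⟨G1, hG1, fun _ _ => rfl⟩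
    refine ⟨G2, hG2.1, T1 ∪ T2, fun G' hG' h p hp => ?_⟩
    have h3 : ∀ p ∈ T1, G'.1 p = G1.1 p := fun p hp => by
      rw [h p (Finset.mem_union_left _ hp), hG2.2 p hp]
    rcases hp with hp | hp
    · rw [hT1 G' hG' h3 p hp, hT1 G2 hG2.1 hG2.2 p hp]
    · exact hT2 G' ⟨hG', h3⟩ (fun q hq => h q (Finset.mem_union_right _ hq)) p hp
  | @up S h ih =>
    intro K hK
    by_cases hex : ∃ G ∈ K, ∃ p ∈ S, G.1 p = false
    · obtain ⟨G0, hG0, p, hp, hGp⟩ := hex
      obtain ⟨G, hG, T, hT⟩ := ih p hp {G' ∈ K | G'.1 p = false} ⟨G0, hG0, hGp⟩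
      refine ⟨G, hG.1, insert p T, fun G' hG' h q hq => ?_⟩
      have h3 : G'.1 p = false := by rw [h p (Finset.mem_insert_self _ _), hG.2]
      by_cases hqp : q ≤ p
      · have h4 : ∀ H : FinalSets P, H.1 p = false → H.1 q = false := by
          intro H hH
          by_contra hcon
          rw [Bool.not_eq_false] at hcon
          rw [H.2 q p hqp hcon] at hH
          exact absurd hH (by simp)
        rw [h4 G' h3, h4 G hG.2]
      · exact hT G' ⟨hG', h3⟩ (fun r hr => h r (Finset.mem_insert_of_mem hr)) q ⟨hq, hqp⟩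
    · push Not at hex
      obtain ⟨G, hG⟩ := hK
      refine ⟨G, hG, ∅, fun G' hG' _ p hp => ?_⟩
      rw [Bool.not_eq_false _ |>.mp (hex G' hG' p hp), Bool.not_eq_false _ |>.mp (hex G hG p hp)]
  | @down S h ih =>
    intro K hK
    by_cases hex : ∃ G ∈ K, ∃ p ∈ S, G.1 p = true
    · obtain ⟨G0, hG0, p, hp, hGp⟩ := hex
      obtain ⟨G, hG, T, hT⟩ := ih p hp {G' ∈ K | G'.1 p = true} ⟨G0, hG0, hGp⟩
      refine ⟨G, hG.1, insert p T, fun G' hG' h q hq => ?_⟩
      have h3 : G'.1 p = true := by rw [h p (Finset.mem_insert_self _ _), hG.2]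
      by_cases hqp : p ≤ q
      · rw [G'.2 p q hqp h3, G.2 p q hqp hG.2]
      · exact hT G' ⟨hG', h3⟩ (fun r hr => h r (Finset.mem_insert_of_mem hr)) q ⟨hq, hqp⟩
    · push Not at hex
      obtain ⟨G, hG⟩ := hK
      refine ⟨G, hG, ∅, fun G' hG' _ p hp => ?_⟩
      rw [Bool.not_eq_true _ |>.mp (hex G' hG' p hp), Bool.not_eq_true _ |>.mp (hex G hG p hp)]

theorem scattered_finalSets (h : Small (univ : Set P)) : Scattered (FinalSets P) := by
  intro K hK
  obtain ⟨G, hG, T, hT⟩ := sc h K hK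
  refine ⟨G, hG, fun hacc => ?_⟩
  rw [accPt_iff_nhds] at hacc
  obtain ⟨G', ⟨h1, h2⟩, h3⟩ := hacc _ (cyl_mem G T)
  exact h3 (Subtype.ext (funext fun p => hT G' h2 h1 p (mem_univ p)))

/-- the reverse order -/
abbrev rle (P : Type u) [PartialOrder P] : P → P → Prop := fun x y => y ≤ x

open Classical in
/-- The point of `FS(P)` given by a final set. -/
noncomputable def ofSet (D : Set P) (h : Low (rle P) D) : FinalSets P :=
  ⟨fun p => decide (p ∈ D), fun x y hxy hx => by
    rw [decide_eq_true_iff] at hx ⊢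
    exact h (x := y) (y := x) hxy hx⟩

/-- The final set of a point of `FS(P)`. -/
def toSet (F : FinalSets P) : Set P := {p | F.1 p = true}

theorem low_toSet (F : FinalSets P) : Low (rle P) (toSet F) := fun x y hxy hy => F.2 y x hxy hy

theorem ofSet_apply {D : Set P} (h : Low (rle P) D) (p : P) :
    (ofSet D h).1 p = true ↔ p ∈ D := by
  simp [ofSet]

theorem ofSet_toSet (F : FinalSets P) : ofSet (toSet F) (low_toSet F) = F := by
  apply Subtype.ext
  funext p
  have := ofSet_apply (low_toSet F) p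
  rw [Bool.eq_iff_iff]
  exact this

open Classical in
/-- The rank function. -/
noncomputable def rk (D : Set P) : Ordinal.{u} :=
  if h : Low (rle P) D then ht (ofSet D h) else 0

theorem rk_eq {D : Set P} (h : Low (rle P) D) : rk D = ht (ofSet D h) := dif_pos h

theorem agree_iff {D G : Set P} (hD : Low (rle P) D) (hG : Low (rle P) G) (p : P) :
    (ofSet G hG).1 p = (ofSet D hD).1 p ↔ (p ∈ G ↔ p ∈ D) := by
  rw [Bool.eq_iff_iff, ofSet_apply, ofSet_apply]

theorem ofSet_inj {D G : Set P} (hD : Low (rle P) D) (hG : Low (rle P) G)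
    (h : ofSet G hG = ofSet D hD) : G = D := by
  ext p
  rw [← agree_iff hD hG, h]

theorem isRank (hsc : Scattered (FinalSets P)) : IsRank (rle P) (rk : Set P → Ordinal.{u}) := by
  constructor
  · intro D hD
    obtain ⟨h1, h2⟩ := ht_spec hsc (ofSet D hD)
    rw [mem_CB_succ] at h2
    have h3 : ¬ AccPt (ofSet D hD) (𝓟 (CB (FinalSets P) (ht (ofSet D hD)))) := fun h => h2 ⟨h1, h⟩
    rw [accPt_iff_nhds] at h3
    push Not at h3
    obtain ⟨N, hN, h4⟩ := h3
    obtain ⟨S, hS⟩ := exists_cyl _ hN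
    refine ⟨S, fun G hG h5 hne => ?_⟩
    rw [rk_eq hD, rk_eq hG]
    by_contra hcon
    push Not at hcon
    have h6 := h4 (ofSet G hG) ⟨hS _ fun p hp => (agree_iff hD hG p).2 (h5 p hp),
      (mem_CB_iff hsc _ _).2 hcon⟩
    exact hne (ofSet_inj hD hG h6)
  · intro D hD β hβ S
    rw [rk_eq hD] at hβ
    have h1 := (mem_CB.1 (ht_spec hsc (ofSet D hD)).1 β hβ).2
    rw [accPt_iff_nhds] at h1
    obtain ⟨G, ⟨h2, h3⟩, h4⟩ := h1 _ (cyl_mem (ofSet D hD) S)
    refine ⟨toSet G, low_toSet G, ?_, ?_, ?_⟩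
    · intro x hx
      have h5 := h2 x hx
      rw [Bool.eq_iff_iff, ofSet_apply] at h5
      exact h5
    · intro h5
      apply h4
      rw [← ofSet_toSet G]
      congr 1
    · rw [rk_eq (low_toSet G), ofSet_toSet]
      exact (mem_CB_iff hsc _ _).1 h3

theorem isClopen_cond (a b : Finset P) :
    IsClopen {G : FinalSets P | (∀ x ∈ a, G.1 x = true) ∧ (∀ x ∈ b, G.1 x = false)} := by
  have h : {G : FinalSets P | (∀ x ∈ a, G.1 x = true) ∧ (∀ x ∈ b, G.1 x = false)} =
      (⋂ x ∈ a, (fun G : FinalSets P => G.1 x) ⁻¹' {true}) ∩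
        (⋂ x ∈ b, (fun G : FinalSets P => G.1 x) ⁻¹' {false}) := by
    ext G; simp
  have hc : ∀ x, Continuous fun G : FinalSets P => G.1 x := fun x =>
    (continuous_apply x).comp continuous_subtype_val
  rw [h]
  exact (isClopen_biInter_finset fun x _ => (isClopen_discrete _).preimage (hc x)).inter
    (isClopen_biInter_finset fun x _ => (isClopen_discrete _).preimage (hc x))

/-- Main theorem. -/
theorem canonicallySkula (hP : Narrow P) (hQ : IsEmpty (ℚ ↪o P)) :
    CanonicallySkula (FinalSets P) := by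
  classical
  have hsc : Scattered (FinalSets P) := scattered_finalSets (small_univ hP hQ)
  refine ⟨inferInstance, inferInstance, ?_⟩
  have hfac : FAC (rle P) := by
    intro f
    obtain ⟨i, j, hij, h⟩ := hP.seq f
    exact ⟨i, j, hij, h.symm⟩
  obtain ⟨a, b, hab⟩ := exists_selector (isRank hsc) (fun x => le_refl x) hfac
  let U : FinalSets P → Set (FinalSets P) := fun F =>
    {G : FinalSets P | (∀ x ∈ a (toSet F), G.1 x = true) ∧ (∀ x ∈ b (toSet F), G.1 x = false)}
  have hrk : ∀ F : FinalSets P, rk (toSet F) = ht F := fun F => by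
    rw [rk_eq (low_toSet F), ofSet_toSet]
  have htoinj : ∀ F G : FinalSets P, toSet F = toSet G → F = G := by
    intro F G h
    rw [← ofSet_toSet F, ← ofSet_toSet G]
    congr 1
  have hmem : ∀ F, F ∈ U F := fun F => by
    obtain ⟨h1, h2, -, -⟩ := hab (toSet F) (low_toSet F)
    exact ⟨fun x hx => h1 x hx, fun x hx => Bool.eq_false_iff.2 (h2 x hx)⟩
  have hlt : ∀ F, ∀ G ∈ U F, G ≠ F → ht G < ht F := by
    intro F G hG hne
    obtain ⟨-, -, h3, -⟩ := hab (toSet F) (low_toSet F)
    have := h3 (toSet G) (low_toSet G) (fun x hx => hG.1 x hx)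
      (fun x hx => Bool.eq_false_iff.1 (hG.2 x hx)) (fun h => hne (htoinj _ _ h))
    rwa [hrk, hrk] at this
  have hU : IsClopenSelector (FinalSets P) U := by
    refine ⟨fun F => isClopen_cond _ _, hmem, ?_⟩
    intro F G hG hne
    refine ⟨?_, fun hF => absurd (hlt F G hG hne) (not_lt_of_gt (hlt G F hF hne.symm))⟩
    intro H hH
    obtain ⟨-, -, -, h4⟩ := hab (toSet F) (low_toSet F)
    have h5 := h4 (toSet G) (low_toSet G) (fun x hx => hG.1 x hx)
      (fun x hx => Bool.eq_false_iff.1 (hG.2 x hx)) (toSet H) (low_toSet H)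
      (fun x hx => hH.1 x hx) (fun x hx => Bool.eq_false_iff.1 (hH.2 x hx))
    exact ⟨fun x hx => h5.1 x hx, fun x hx => Bool.eq_false_iff.2 (h5.2 x hx)⟩
  exact ⟨U, hU, fun F => isUnitary_of hsc (hU.clopen F) (hmem F) (hlt F)⟩

end Pool.Agent.R667.Skula
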